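import Pool.Agent.N990.EJ.Stm

/-!
# FIN: the finite volume Gibbs distributions are consistent (spins `true`, `false`)
-/

set_option autoImplicit false

open MeasureTheory Finset
open Pool.Agent.N988.EA Pool.Agent.N990.EJ

namespace Pool.Agent.N946.EJ

noncomputable section

/-- restriction to the half `q` -/
def rs (n : ℕ) (q : Fin 2 × Bool) (σ : Vert 2 (n + 1) → Bool) : Vert 2 n → Bool :=
  fun y => σ (Sum.inr (q.1, q.2, y) : Vert 2 (n + 1))

/-- the ends of the half `q` -/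
def te (n : ℕ) (q : Fin 2 × Bool) (τ : Bool → Bool) (σ : Vert 2 (n + 1) → Bool) : Bool → Bool :=
  fun t => (Sum.elim τ σ : Pt 2 (n + 1) → Bool) (emb q.1 q.2 (.inl t))

/-- the other terms of the action -/
def Rr (n : ℕ) (J : Edge 2 (n + 1) → ℝ) (q : Fin 2 × Bool) (τ : Bool → Bool)
    (σ : Vert 2 (n + 1) → Bool) : ℝ :=
  ∑ ih ∈ (univ : Finset (Fin 2 × Bool)).erase q,
    act (fun e => J (ih.1, ih.2, e)) (te n ih τ σ) (rs n ih σ)

theorem upd_inl (n : ℕ) (q : Fin 2 × Bool) (σ : Vert 2 (n + 1) → Bool) (σ' : Vert 2 n → Bool)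
    (i : Fin 2) : upd n q σ σ' (Sum.inl i : Vert 2 (n + 1)) = σ (Sum.inl i : Vert 2 (n + 1)) := rfl

theorem upd_inr (n : ℕ) (q : Fin 2 × Bool) (σ : Vert 2 (n + 1) → Bool) (σ' : Vert 2 n → Bool)
    (i : Fin 2) (h : Bool) (y : Vert 2 n) : upd n q σ σ' (Sum.inr (i, h, y) : Vert 2 (n + 1))
      = if (i, h) = q then σ' y else σ (Sum.inr (i, h, y) : Vert 2 (n + 1)) := rfl

theorem elim_emb (n : ℕ) (q : Fin 2 × Bool) (τ : Bool → Bool) (σ : Vert 2 (n + 1) → Bool)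
    (x : Pt 2 n) : (Sum.elim τ σ : Pt 2 (n + 1) → Bool) (emb q.1 q.2 x) =
      (Sum.elim (te n q τ σ) (rs n q σ) : Pt 2 n → Bool) x := by
  rcases x with t | y
  · rfl
  · rfl

theorem act_sum (n : ℕ) (J : Edge 2 (n + 1) → ℝ) (τ : Bool → Bool) (σ : Vert 2 (n + 1) → Bool) :
    act J τ σ = ∑ ih : Fin 2 × Bool,
      act (fun e => J (ih.1, ih.2, e)) (te n ih τ σ) (rs n ih σ) := by
  unfold act
  show ∑ e : Fin 2 × Bool × Edge 2 n, J e *
      sg ((Sum.elim τ σ : Pt 2 (n + 1) → Bool) (emb e.1 e.2.1 (bd n e.2.2 false))) *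
      sg ((Sum.elim τ σ : Pt 2 (n + 1) → Bool) (emb e.1 e.2.1 (bd n e.2.2 true))) = _
  rw [Fintype.sum_prod_type, Fintype.sum_prod_type]
  refine sum_congr rfl fun i _ => ?_
  rw [Fintype.sum_prod_type]
  refine sum_congr rfl fun h _ => ?_
  refine sum_congr rfl fun e _ => ?_
  rw [← elim_emb n (i, h), ← elim_emb n (i, h)]

theorem act_split (n : ℕ) (J : Edge 2 (n + 1) → ℝ) (q : Fin 2 × Bool) (τ : Bool → Bool)
    (σ : Vert 2 (n + 1) → Bool) :
    act J τ σ = act (fun e => J (q.1, q.2, e)) (te n q τ σ) (rs n q σ) + Rr n J q τ σ := by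
  rw [act_sum, ← add_sum_erase _ _ (mem_univ q)]
  rfl

theorem te_upd (n : ℕ) (q ih : Fin 2 × Bool) (τ : Bool → Bool) (σ : Vert 2 (n + 1) → Bool)
    (σ' : Vert 2 n → Bool) : te n ih τ (upd n q σ σ') = te n ih τ σ := by
  funext t
  unfold te
  simp only [emb]
  by_cases h : t = ih.2
  · rw [if_pos h]; rfl
  · rw [if_neg h]; rfl

theorem rs_upd (n : ℕ) (q : Fin 2 × Bool) (σ : Vert 2 (n + 1) → Bool) (σ' : Vert 2 n → Bool) :
    rs n q (upd n q σ σ') = σ' := by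
  funext y
  unfold rs
  rw [upd_inr, if_pos rfl]

theorem rs_upd_ne (n : ℕ) (q ih : Fin 2 × Bool) (hne : ih ≠ q) (σ : Vert 2 (n + 1) → Bool)
    (σ' : Vert 2 n → Bool) : rs n ih (upd n q σ σ') = rs n ih σ := by
  funext y
  unfold rs
  rw [upd_inr, if_neg (show (ih.1, ih.2) ≠ q from hne)]

theorem upd_upd (n : ℕ) (q : Fin 2 × Bool) (σ : Vert 2 (n + 1) → Bool) (σ' : Vert 2 n → Bool) :
    upd n q (upd n q σ σ') (rs n q σ) = σ := by
  funext x
  rcases x with i | ⟨i, h, y⟩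
  · rfl
  · show upd n q (upd n q σ σ') (rs n q σ) (Sum.inr (i, h, y) : Vert 2 (n + 1)) = _
    rw [upd_inr]
    by_cases hq : (i, h) = q
    · rw [if_pos hq]; subst hq; rfl
    · rw [if_neg hq, upd_inr, if_neg hq]

theorem Rr_upd (n : ℕ) (J : Edge 2 (n + 1) → ℝ) (q : Fin 2 × Bool) (τ : Bool → Bool)
    (σ : Vert 2 (n + 1) → Bool) (σ' : Vert 2 n → Bool) :
    Rr n J q τ (upd n q σ σ') = Rr n J q τ σ := by
  unfold Rr
  refine sum_congr rfl fun ih hih => ?_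
  rw [te_upd, rs_upd_ne n q ih (mem_erase.mp hih).1]

/-- the involution `(σ, σ') ↦ (upd n q σ σ', rs n q σ)` -/
def Ph (n : ℕ) (q : Fin 2 × Bool) : Equiv.Perm ((Vert 2 (n + 1) → Bool) × (Vert 2 n → Bool)) where
  toFun z := (upd n q z.1 z.2, rs n q z.1)
  invFun z := (upd n q z.1 z.2, rs n q z.1)
  left_inv z := by
    obtain ⟨σ, σ'⟩ := z
    show (upd n q (upd n q σ σ') (rs n q σ), rs n q (upd n q σ σ')) = (σ, σ')
    rw [upd_upd, rs_upd]
  right_inv z := by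
    obtain ⟨σ, σ'⟩ := z
    show (upd n q (upd n q σ σ') (rs n q σ), rs n q (upd n q σ σ')) = (σ, σ')
    rw [upd_upd, rs_upd]

theorem Z_pos {n : ℕ} (J : Edge 2 n → ℝ) (τ : Bool → Bool) : 0 < Z J τ := by
  unfold Z
  exact sum_pos (fun σ _ => Real.exp_pos _) univ_nonempty

theorem gw_sum {n : ℕ} (J : Edge 2 n → ℝ) (τ : Bool → Bool) : ∑ s, gw J τ s = 1 := by
  unfold gw
  rw [← sum_div]
  exact div_self (Z_pos J τ).ne'

theorem t_fin : Pool.Agent.N990.EJ.S_FIN := by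
  intro n J q τ G
  have h1 : ∀ (σ : Vert 2 (n + 1) → Bool) (σ' : Vert 2 n → Bool),
      gw J τ (upd n q σ σ') * (gw (fun e => J (q.1, q.2, e)) (te n q τ (upd n q σ σ')) (rs n q σ) *
        G (upd n q (upd n q σ σ') (rs n q σ))) =
      gw J τ σ * G σ * gw (fun e => J (q.1, q.2, e)) (te n q τ σ) σ' := by
    intro σ σ'
    rw [upd_upd, te_upd]
    unfold gw
    rw [act_split n J q τ (upd n q σ σ'), act_split n J q τ σ, te_upd, rs_upd, Rr_upd, Real.exp_add,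
      Real.exp_add]
    ring
  have h2 := Equiv.sum_comp (Ph n q) fun z : (Vert 2 (n + 1) → Bool) × (Vert 2 n → Bool) =>
    gw J τ z.1 * (gw (fun e => J (q.1, q.2, e)) (te n q τ z.1) z.2 * G (upd n q z.1 z.2))
  rw [Fintype.sum_prod_type, Fintype.sum_prod_type] at h2
  have h3 : ∀ σ : Vert 2 (n + 1) → Bool, ∑ σ' : Vert 2 n → Bool,
      gw J τ (upd n q σ σ') * (gw (fun e => J (q.1, q.2, e)) (te n q τ (upd n q σ σ')) (rs n q σ) *
        G (upd n q (upd n q σ σ') (rs n q σ))) = gw J τ σ * G σ := by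
    intro σ
    simp_rw [h1]
    rw [← mul_sum, gw_sum, mul_one]
  have h4 : ∑ σ : Vert 2 (n + 1) → Bool, gw J τ σ * G σ =
      ∑ σ : Vert 2 (n + 1) → Bool, ∑ σ' : Vert 2 n → Bool,
        gw J τ σ * (gw (fun e => J (q.1, q.2, e)) (te n q τ σ) σ' * G (upd n q σ σ')) := by
    rw [← h2]
    exact sum_congr rfl fun σ _ => (h3 σ).symm
  rw [h4]
  refine sum_congr rfl fun σ _ => ?_
  rw [← mul_sum]
  rfl

end

end Pool.Agent.N946.EJ
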